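import Pool.Agent.N928.FG.Stm

/-!
# Project FG, leaf SUM1 (helper439): comparison of the Green function with the candidate
-/

set_option autoImplicit false

namespace Pool.Agent.N439.FG

open Pool.Agent.N928.FG Filter Topology

/-- the transition operator as a linear map -/
noncomputable def Pl (β : ℝ) : (Ga → ℝ) →ₗ[ℝ] (Ga → ℝ) where
  toFun := P β
  map_add' f h := by
    funext x
    simp only [P, Pi.add_apply, mul_add]
    exact Finsupp.sum_add
  map_smul' c h := by
    funext x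
    simp only [P, Pi.smul_apply, smul_eq_mul, RingHom.id_apply]
    rw [Finsupp.mul_sum]
    refine Finsupp.sum_congr fun y _ => ?_
    ring

theorem Pl_pow (β : ℝ) (n : ℕ) (h : Ga → ℝ) : (Pl β ^ n) h = (P β)^[n] h :=
  Module.End.pow_apply _ _ _

theorem P_nonneg {β : ℝ} (hn : ∀ x, 0 ≤ nu β x) {h : Ga → ℝ} (hh : ∀ x, 0 ≤ h x) (x : Ga) :
    0 ≤ P β h x :=
  Finset.sum_nonneg fun y _ => mul_nonneg (hn y) (hh _)

theorem P_le {β : ℝ} (hn : ∀ x, 0 ≤ nu β x) (hm : (nu β).sum (fun _ t => t) = 1) {h : Ga → ℝ}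
    {B : ℝ} (hh : ∀ x, h x ≤ B) (x : Ga) : P β h x ≤ B := by
  have h1 : P β h x ≤ (nu β).sum (fun _ t => t * B) :=
    Finset.sum_le_sum fun y _ => mul_le_mul_of_nonneg_left (hh _) (hn y)
  have h2 : (nu β).sum (fun _ t => t * B) = B := by
    rw [← Finsupp.sum_mul, hm, one_mul]
  rw [h2] at h1
  exact h1

theorem it_nonneg {β : ℝ} (hn : ∀ x, 0 ≤ nu β x) {h : Ga → ℝ} (hh : ∀ x, 0 ≤ h x) (n : ℕ) :
    ∀ x, 0 ≤ (P β)^[n] h x := by
  induction n with
  | zero => exact hh
  | succ n ih =>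
    intro x
    rw [Function.iterate_succ_apply']
    exact P_nonneg hn ih x

theorem it_le {β : ℝ} (hn : ∀ x, 0 ≤ nu β x) (hm : (nu β).sum (fun _ t => t) = 1) {h : Ga → ℝ}
    {B : ℝ} (hh : ∀ x, h x ≤ B) (n : ℕ) : ∀ x, (P β)^[n] h x ≤ B := by
  induction n with
  | zero => exact hh
  | succ n ih =>
    intro x
    rw [Function.iterate_succ_apply']
    exact P_le hn hm ih x

theorem expand {β z : ℝ} {g : Ga → ℝ} (hg : ∀ x, g x = δ x + z * P β g x) (N : ℕ) :
    g 1 = (∑ n ∈ Finset.range N, p β n * z ^ n) + z ^ N * (P β)^[N] g 1 := by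
  have hg' : g = δ + z • Pl β g := funext fun x => hg x
  induction N with
  | zero => simp
  | succ N ih =>
    have h1 : (P β)^[N] g = (P β)^[N] δ + z • (P β)^[N + 1] g := by
      have h2 : (Pl β ^ N) g = (Pl β ^ N) (δ + z • Pl β g) := by rw [← hg']
      rw [map_add, map_smul, Pl_pow, Pl_pow, Pl_pow] at h2
      rw [Function.iterate_succ_apply]
      exact h2
    have h3 := congrFun h1 1
    simp only [Pi.add_apply, Pi.smul_apply, smul_eq_mul] at h3
    rw [ih, h3, Finset.sum_range_succ, pow_succ]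
    unfold p
    ring

theorem t_SUM1 : S_HARM → S_NU → S_DZ → S_SUM1 := by
  intro hH hN hD β hβ hβ' u hu hu'
  obtain ⟨hn, hm, -, -⟩ := hN β hβ hβ'
  obtain ⟨g, hgb, hg1, hg⟩ := hH β hβ hβ' u hu hu'
  have hW : 1 ≤ W β u := (hD β hβ hβ').1 u ⟨hu.le, hu'.le⟩
  have hz : 0 < Z β u := by
    unfold Z
    have : 0 < W β u := by linarith
    positivity
  have hδ : ∀ x, 0 ≤ δ x := fun x => Set.indicator_nonneg (fun _ _ => zero_le_one) x
  have hp : ∀ n, 0 ≤ p β n := fun n => it_nonneg hn hδ n 1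
  have hP0 : ∀ N, 0 ≤ (P β)^[N] g 1 := fun N => it_nonneg hn (fun x => (hgb x).1) N 1
  have hP1 : ∀ N, (P β)^[N] g 1 ≤ W β u := fun N => it_le hn hm (fun x => (hgb x).2) N 1
  have hpos : ∀ n, 0 ≤ p β n * Z β u ^ n := fun n => mul_nonneg (hp n) (by positivity)
  have hle : ∀ N, ∑ n ∈ Finset.range N, p β n * Z β u ^ n ≤ W β u := by
    intro N
    have h1 := expand hg N
    have h2 : 0 ≤ Z β u ^ N * (P β)^[N] g 1 := mul_nonneg (by positivity) (hP0 N)
    rw [hg1] at h1
    linarith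
  refine ⟨summable_of_sum_range_le hpos hle, Real.tsum_le_of_sum_range_le hpos hle, fun hz1 => ?_⟩
  have h3 : Tendsto (fun N => Z β u ^ N * (P β)^[N] g 1) atTop (𝓝 0) := by
    have h4 : Tendsto (fun N : ℕ => Z β u ^ N * W β u) atTop (𝓝 0) := by
      have := (tendsto_pow_atTop_nhds_zero_of_lt_one hz.le hz1).mul_const (W β u)
      rwa [zero_mul] at this
    exact squeeze_zero (fun N => mul_nonneg (by positivity) (hP0 N))
      (fun N => mul_le_mul_of_nonneg_left (hP1 N) (by positivity)) h4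
  have h5 : Tendsto (fun N => ∑ n ∈ Finset.range N, p β n * Z β u ^ n) atTop (𝓝 (W β u)) := by
    have h6 : (fun N => ∑ n ∈ Finset.range N, p β n * Z β u ^ n) =
        fun N => W β u - Z β u ^ N * (P β)^[N] g 1 := by
      funext N
      have h1 := expand hg N
      rw [hg1] at h1
      linarith
    rw [h6]
    simpa using h3.const_sub (W β u)
  exact ((hasSum_iff_tendsto_nat_of_nonneg hpos _).2 h5).tsum_eq

end Pool.Agent.N439.FG
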